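import Pool.Agent.Helper52.SM.Goals
import Pool.Agent.Helper61.CS.ALN

/-!
# SM-FNM: the end of the search for coins
-/

set_option autoImplicit false

namespace Pool.Agent.Helper12.SM

open Pool.Agent.Helper81.CC Pool.Agent.Helper78.DT Pool.Agent.Helper65.CS
open Pool.Agent.Helper52.SM Pool.Agent.Helper61.CS
open Pool.Agent.Helper78

theorem fnmS : FnmStmt := by
  intro A c x s _hs hlt hal hpos
  have hex : ∃ y : Fin (A.m x) → Bool,
      A.out (x, PM.results A c x (ov s (PM.coins y))) = true := by
    by_contra h
    push Not at h
    have h0 : phi A c x s = 0 := by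
      unfold phi pr av
      simp [h]
    rw [h0] at hpos
    exact lt_irrefl _ hpos
  obtain ⟨y, hy⟩ := hex
  have hcov : ∀ v : ℕ, v < A.m x → (v, true) ∈ s ∨ (v, false) ∈ s := by
    intro v hv
    by_contra h
    have h1 : v ∈ al (A.m x) s :=
      mem_al.2 ⟨hv, fun h' => h (Or.inl h'), fun h' => h (Or.inr h')⟩
    rw [hal] at h1
    exact List.not_mem_nil h1
  refine ⟨fun v => s.contains ((v : ℕ), true), ?_, ?_⟩
  · have h2 : ov s (PM.coins y) =
        PM.coins (fun v : Fin (A.m x) => s.contains ((v : ℕ), true)) := by
      funext v
      unfold ov ovb PM.coins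
      by_cases hv : v < A.m x
      · rw [dif_pos hv, dif_pos hv]
        by_cases h1 : (v, true) ∈ s
        · have h3 : s.contains (v, true) = true := List.contains_iff_mem.2 h1
          rw [if_pos h3]
          exact h3.symm
        · have h3 : ¬ s.contains (v, true) = true := fun h => h1 (List.contains_iff_mem.1 h)
          have h4 : s.contains (v, false) = true := by
            rcases hcov v hv with h | h
            · exact absurd h h1
            · exact List.contains_iff_mem.2 h
          rw [if_neg h3, if_pos h4]
          simpa using h3
      · have h3 : ¬ s.contains (v, true) = true := fun h =>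
          hv (hlt _ (List.contains_iff_mem.1 h))
        have h4 : ¬ s.contains (v, false) = true := fun h =>
          hv (hlt _ (List.contains_iff_mem.1 h))
        rw [if_neg h3, if_neg h4, dif_neg hv, dif_neg hv]
    rw [← h2]
    exact hy
  · unfold asg
    apply List.ext_getElem
    · simp
    · intro i h1 h2
      simp

end Pool.Agent.Helper12.SM
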