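import Mathlib
import Pool.Agent.Helper73.SM.GoalsK

/-!
# Project KR (MP_c307ca_nt), packet KAS: asymptotics
-/

set_option autoImplicit false

namespace Pool.Agent.Helper12.SM

open Finset
open Pool.Agent.Helper73.SM

theorem goalKAS (hPN : StmtKPN) (hLL : StmtKLL) : Pool.Agent.Helper73.SM.StmtKAS := by
  classical
  intro k m hOk
  obtain ⟨hk3, hm1, hmk, hcop⟩ := hOk
  have hOk : Ok k m := ⟨hk3, hm1, hmk, hcop⟩
  have hkR : (3 : ℝ) ≤ (k : ℝ) := by exact_mod_cast hk3
  have hk0 : (0 : ℝ) < (k : ℝ) := by linarith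
  obtain ⟨B, n1, hB1, hhi⟩ := hPN.hi k (1 / (32 * (k : ℝ) ^ 2)) (by omega) (by positivity)
  obtain ⟨n2, hlo⟩ := hPN.lo k hk3
  have hBR : (1 : ℝ) ≤ (B : ℝ) := by exact_mod_cast hB1
  refine ⟨B, n1 + n2 + 3 + 2 * k * (B + 1) * B + 3 * k * B ^ 2 + (2 * k * B) ^ (8 * k), 1 / (4 * k), hB1,
    by omega, by positivity, ?_⟩
  intro n hn
  -- the lower bounds for `n`
  have hn1 : n1 ≤ n := by omega
  have hn2 : n2 ≤ n := by omega
  have hn3 : 3 ≤ n := by omega
  have hn4 : 2 * k * (B + 1) * B ≤ n := by omega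
  have hn5 : 3 * k * B ^ 2 ≤ n := by omega
  have hn6 : (2 * k * B) ^ (8 * k) ≤ n := by omega
  have hn2k : 2 * k ≤ n := by
    refine le_trans ?_ hn4
    calc 2 * k = 2 * k * 1 * 1 := by ring
      _ ≤ 2 * k * (B + 1) * B := by
        apply Nat.mul_le_mul _ hB1
        exact Nat.mul_le_mul le_rfl (by omega)
  have hnR : (3 : ℝ) ≤ (n : ℝ) := by exact_mod_cast hn3
  have hn0 : (0 : ℝ) < (n : ℝ) := by linarith
  have hM : 2 * k * (B + 1) ≤ n / B := (Nat.le_div_iff_mul_le hB1).2 hn4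
  have hlt : n < B * (n / B + 1) := Nat.lt_mul_div_succ n hB1
  have hM2 : 2 * k ≤ n / B := by
    refine le_trans ?_ hM
    calc 2 * k = 2 * k * 1 := by ring
      _ ≤ 2 * k * (B + 1) := Nat.mul_le_mul le_rfl (by omega)
  -- (1)
  have h1 : k * n + 2 * k < (n / B + 1) ^ 2 := by
    have e1 : B ^ 2 * (k * n + 2 * k) ≤ n ^ 2 := by
      calc B ^ 2 * (k * n + 2 * k) ≤ B ^ 2 * (k * n + 2 * k * n) := by
            apply Nat.mul_le_mul le_rfl
            have : 2 * k * 1 ≤ 2 * k * n := Nat.mul_le_mul le_rfl (by omega)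
            omega
        _ = (3 * k * B ^ 2) * n := by ring
        _ ≤ n * n := Nat.mul_le_mul hn5 le_rfl
        _ = n ^ 2 := by ring
    have e2 : n ^ 2 < B ^ 2 * (n / B + 1) ^ 2 := by
      calc n ^ 2 < (B * (n / B + 1)) ^ 2 := Nat.pow_lt_pow_left hlt (by norm_num)
        _ = B ^ 2 * (n / B + 1) ^ 2 := by ring
    exact Nat.lt_of_mul_lt_mul_left (lt_of_le_of_lt e1 e2)
  -- membership
  have hmem : ∀ p ∈ RK k m n (n / B), n / B < p ∧ p ≤ k * n + k ∧ p.Prime := by
    intro p hp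
    unfold RK at hp
    rw [Finset.mem_filter, Finset.mem_Ioc] at hp
    exact ⟨hp.1.1, hp.1.2, hp.2.1⟩
  have hsub : (Ioc (2 * n) (2 * n + n / k)).filter Nat.Prime ⊆ RK k m n (n / B) := by
    intro p hp
    rw [Finset.mem_filter, Finset.mem_Ioc] at hp
    obtain ⟨⟨hp1, hp2⟩, hpp⟩ := hp
    have hnk : n / k ≤ n := Nat.div_le_self n k
    have hnB : n / B ≤ n := Nat.div_le_self n B
    unfold RK
    rw [Finset.mem_filter, Finset.mem_Ioc]
    have h3n : 3 * n ≤ k * n := Nat.mul_le_mul hk3 le_rfl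
    refine ⟨⟨by omega, by omega⟩, hpp, ?_, ?_⟩
    · intro hd
      have := Nat.le_of_dvd (by omega) hd
      omega
    · obtain ⟨l, hl, -, hl2⟩ := hLL k m p hOk hpp (by omega)
      refine ⟨l, hl, ?_, ?_⟩
      · rw [Nat.mod_eq_of_lt (by omega)]
        have e1 : (k - 1) * p ≤ (k - 1) * (2 * n + n / k) := Nat.mul_le_mul le_rfl hp2
        have e2 : (k - 1) * (n / k) ≤ n := by
          calc (k - 1) * (n / k) ≤ k * (n / k) := Nat.mul_le_mul (Nat.sub_le k 1) le_rfl
            _ ≤ n := Nat.mul_div_le n k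
        have e3 : (k - 1) * (2 * n + n / k) = (k - 1) * (n / k) + 2 * (k - 1) * n := by ring
        have e4 : 2 * (k - 1) * n + 2 * n = 2 * k * n := by
          obtain ⟨k', rfl⟩ : ∃ k', k = k' + 1 := ⟨k - 1, by omega⟩
          simp only [Nat.add_sub_cancel]
          ring
        have e5 : 2 * k * l ≤ 2 * k * n := by omega
        exact Nat.le_of_mul_le_mul_left e5 (by omega)
      · rw [Nat.mod_eq_of_lt (by omega)]
        have e1 : (k + 1) * (2 * n + 1) ≤ (k + 1) * p := Nat.mul_le_mul le_rfl hp1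
        have e2 : (k + 1) * (2 * n + 1) = 2 * k * n + 2 * n + k + 1 := by ring
        have e3 : (k - 1) * p + (k + 1) * p = 2 * k * p := by
          obtain ⟨k', rfl⟩ : ∃ k', k = k' + 1 := ⟨k - 1, by omega⟩
          simp only [Nat.add_sub_cancel]
          ring
        have e4 : 2 * k * (n + l) = 2 * k * n + 2 * k * l := by ring
        have e5 : 2 * k * (n + l) < 2 * k * p := by omega
        exact Nat.lt_of_mul_lt_mul_left e5
  have hS : (n : ℝ) / (2 * k) ≤ ∑ p ∈ RK k m n (n / B), Real.log p := by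
    refine (hlo n hn2).trans (Finset.sum_le_sum_of_subset_of_nonneg hsub ?_)
    intro p hp _
    exact Real.log_natCast_nonneg p
  -- logarithms
  have hlogn : 0 < Real.log n := Real.log_pos (by linarith)
  have hknR : ((k * n + k : ℕ) : ℝ) = (k : ℝ) * n + k := by push_cast; ring
  have hkn1 : (1 : ℝ) < (k : ℝ) * n + k := by nlinarith
  have hLpos : 0 < Real.log ((k : ℝ) * n + k) := Real.log_pos hkn1
  have hL2 : Real.log ((k : ℝ) * n + k) ≤ 2 * Real.log n := by
    have e1 : (k : ℝ) * n + k ≤ (n : ℝ) ^ 2 := by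
      have e2 : (2 : ℝ) * k ≤ n := by exact_mod_cast hn2k
      nlinarith
    calc Real.log ((k : ℝ) * n + k) ≤ Real.log ((n : ℝ) ^ 2) := Real.log_le_log (by linarith) e1
      _ = 2 * Real.log n := by rw [Real.log_pow]; norm_num
  have hlogp : ∀ p ∈ RK k m n (n / B), Real.log p ≤ Real.log ((k : ℝ) * n + k) := by
    intro p hp
    obtain ⟨h1, h2, h3⟩ := hmem p hp
    apply Real.log_le_log
    · exact_mod_cast h3.pos
    · rw [← hknR]
      exact_mod_cast h2
  have hlogp2 : ∀ p ∈ RK k m n (n / B), Real.log ((n : ℝ) / B) ≤ Real.log p := by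
    intro p hp
    obtain ⟨h1, h2, h3⟩ := hmem p hp
    apply Real.log_le_log
    · positivity
    · rw [div_le_iff₀ (by linarith)]
      have e1 : n ≤ p * B := by
        calc n ≤ B * (n / B + 1) := hlt.le
          _ ≤ B * p := Nat.mul_le_mul le_rfl h1
          _ = p * B := by ring
      exact_mod_cast e1
  have hrL : ∑ p ∈ RK k m n (n / B), Real.log p
      ≤ ((RK k m n (n / B)).card : ℝ) * Real.log ((k : ℝ) * n + k) := by
    calc ∑ p ∈ RK k m n (n / B), Real.log p
        ≤ ∑ p ∈ RK k m n (n / B), Real.log ((k : ℝ) * n + k) := Finset.sum_le_sum hlogp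
      _ = ((RK k m n (n / B)).card : ℝ) * Real.log ((k : ℝ) * n + k) := by
        rw [Finset.sum_const, nsmul_eq_mul]
  have hrl : ((RK k m n (n / B)).card : ℝ) * Real.log ((n : ℝ) / B)
      ≤ ∑ p ∈ RK k m n (n / B), Real.log p := by
    calc ((RK k m n (n / B)).card : ℝ) * Real.log ((n : ℝ) / B)
        = ∑ p ∈ RK k m n (n / B), Real.log ((n : ℝ) / B) := by
          rw [Finset.sum_const, nsmul_eq_mul]
      _ ≤ ∑ p ∈ RK k m n (n / B), Real.log p := Finset.sum_le_sum hlogp2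
  have hlog6 : (1 - 1 / (8 * (k : ℝ))) * Real.log ((k : ℝ) * n + k) ≤ Real.log ((n : ℝ) / B) := by
    have e1 : Real.log ((k : ℝ) * n + k) ≤ Real.log (2 * (k : ℝ)) + Real.log n := by
      rw [← Real.log_mul (by positivity) (by positivity)]
      apply Real.log_le_log (by linarith)
      nlinarith
    have e2 : Real.log ((n : ℝ) / B) = Real.log n - Real.log B :=
      Real.log_div (by positivity) (by positivity)
    have e3 : (8 * (k : ℝ)) * (Real.log (2 * (k : ℝ)) + Real.log B) ≤ Real.log n := by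
      have e4 : (((2 * k * B) ^ (8 * k) : ℕ) : ℝ) ≤ (n : ℝ) := by exact_mod_cast hn6
      have e5 : Real.log (((2 * k * B) ^ (8 * k) : ℕ) : ℝ) ≤ Real.log n := by
        apply Real.log_le_log _ e4
        have : 0 < (2 * k * B) ^ (8 * k) := by positivity
        exact_mod_cast this
      have e6 : Real.log (((2 * k * B) ^ (8 * k) : ℕ) : ℝ)
          = (8 * (k : ℝ)) * (Real.log (2 * (k : ℝ)) + Real.log B) := by
        push_cast
        rw [Real.log_pow, Real.log_mul (by positivity) (by positivity)]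
        push_cast
        ring
      rw [← e6]
      exact e5
    have hL2k : 0 ≤ Real.log (2 * (k : ℝ)) := Real.log_nonneg (by linarith)
    have hLB : 0 ≤ Real.log (B : ℝ) := Real.log_nonneg hBR
    have e7 : Real.log (2 * (k : ℝ)) + Real.log B ≤ 1 / (8 * (k : ℝ)) * Real.log n := by
      rw [div_mul_eq_mul_div, one_mul, le_div_iff₀ (by positivity)]
      linarith
    have e8 : 0 < 1 / (8 * (k : ℝ)) := by positivity
    have e9 : 1 / (8 * (k : ℝ)) ≤ 1 := by
      rw [div_le_one (by positivity)]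
      linarith
    rw [e2]
    have e10 : (1 - 1 / (8 * (k : ℝ))) * Real.log ((k : ℝ) * n + k)
        ≤ (1 - 1 / (8 * (k : ℝ))) * (Real.log (2 * (k : ℝ)) + Real.log n) :=
      mul_le_mul_of_nonneg_left e1 (by linarith)
    have e11 : 0 ≤ 1 / (8 * (k : ℝ)) * Real.log (2 * (k : ℝ)) := by positivity
    nlinarith
  have hE := hhi n hn1
  refine ⟨⟨hM2, h1⟩, ?_, ?_, ?_⟩
  · -- (2)
    have e1 : (n : ℝ) / (2 * k) ≤ ((RK k m n (n / B)).card : ℝ) * (2 * Real.log n) := by
      refine (hS.trans hrL).trans ?_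
      exact mul_le_mul_of_nonneg_left hL2 (by positivity)
    have e2 : 1 / (4 * (k : ℝ)) * (n / Real.log n) = (n : ℝ) / (2 * k) / (2 * Real.log n) := by
      field_simp
      ring
    rw [e2, div_le_iff₀ (by positivity)]
    exact e1
  · -- (3)
    intro Q hQ hQS
    set S : ℝ := ∑ p ∈ RK k m n (n / B), Real.log p with hSdef
    set r : ℝ := ((RK k m n (n / B)).card : ℝ) with hr
    have hr0 : 0 ≤ r := by positivity
    have e1 : ((Nat.primeCounting (n / B) : ℝ) + 2) * Real.log (2 * k * (k * n + k) ^ 2)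
        ≤ 1 / (16 * (k : ℝ)) * S := by
      refine hE.trans ?_
      calc 1 / (32 * (k : ℝ) ^ 2) * (n : ℝ) = 1 / (16 * (k : ℝ)) * ((n : ℝ) / (2 * k)) := by
            field_simp
            ring
        _ ≤ 1 / (16 * (k : ℝ)) * S := mul_le_mul_of_nonneg_left hS (by positivity)
    have e2 : ∑ p ∈ Q, Real.log p ≤ (Q.card : ℝ) * Real.log ((k : ℝ) * n + k) := by
      calc ∑ p ∈ Q, Real.log p ≤ ∑ p ∈ Q, Real.log ((k : ℝ) * n + k) :=
            Finset.sum_le_sum (fun p hp => hlogp p (hQ hp))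
        _ = (Q.card : ℝ) * Real.log ((k : ℝ) * n + k) := by
          rw [Finset.sum_const, nsmul_eq_mul]
    have hk16 : 0 < 1 / (16 * (k : ℝ)) := by positivity
    have hk16' : 1 / (16 * (k : ℝ)) ≤ 1 / 48 := by
      apply one_div_le_one_div_of_le (by norm_num)
      linarith
    have e3 : (1 / 2) * (1 - 1 / (16 * (k : ℝ))) * S ≤ ∑ p ∈ Q, Real.log p := by
      have : S ≤ 2 * ∑ p ∈ Q, Real.log p + 1 / (16 * (k : ℝ)) * S := by linarith
      linarith
    have e4 : (1 / 2) * (1 - 1 / (16 * (k : ℝ))) * (r * ((1 - 1 / (8 * (k : ℝ)))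
        * Real.log ((k : ℝ) * n + k))) ≤ (Q.card : ℝ) * Real.log ((k : ℝ) * n + k) := by
      refine le_trans ?_ (e3.trans e2)
      apply mul_le_mul_of_nonneg_left
      · exact (mul_le_mul_of_nonneg_left hlog6 hr0).trans hrl
      · have : 0 ≤ 1 - 1 / (16 * (k : ℝ)) := by linarith
        positivity
    have e5 : (1 / 2) * (1 - 1 / (16 * (k : ℝ))) * (r * (1 - 1 / (8 * (k : ℝ)))) ≤ (Q.card : ℝ) := by
      apply le_of_mul_le_mul_right _ hLpos
      calc (1 / 2) * (1 - 1 / (16 * (k : ℝ))) * (r * (1 - 1 / (8 * (k : ℝ))))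
            * Real.log ((k : ℝ) * n + k)
          = (1 / 2) * (1 - 1 / (16 * (k : ℝ))) * (r * ((1 - 1 / (8 * (k : ℝ)))
              * Real.log ((k : ℝ) * n + k))) := by ring
        _ ≤ _ := e4
    refine le_trans ?_ e5
    have e6 : 1 - 1 / (4 * (k : ℝ)) ≤ (1 - 1 / (16 * (k : ℝ))) * (1 - 1 / (8 * (k : ℝ))) := by
      have e7 : 1 / (4 * (k : ℝ)) = 4 * (1 / (16 * (k : ℝ))) := by
        field_simp
        ring
      have e8 : 1 / (8 * (k : ℝ)) = 2 * (1 / (16 * (k : ℝ))) := by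
        field_simp
        ring
      rw [e7, e8]
      nlinarith
    calc (1 / 2) * (1 - 1 / (4 * (k : ℝ))) * r
        ≤ (1 / 2) * ((1 - 1 / (16 * (k : ℝ))) * (1 - 1 / (8 * (k : ℝ)))) * r := by
          apply mul_le_mul_of_nonneg_right _ hr0
          linarith
      _ = (1 / 2) * (1 - 1 / (16 * (k : ℝ))) * (r * (1 - 1 / (8 * (k : ℝ)))) := by ring
  · -- (4)
    intro p hp a ha
    obtain ⟨h1, h2, h3⟩ := hmem p hp
    have e1 : n / p ≤ B := by
      have : n < (B + 1) * p := by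
        calc n < B * (n / B + 1) := hlt
          _ ≤ B * p := Nat.mul_le_mul le_rfl h1
          _ ≤ (B + 1) * p := Nat.mul_le_mul (by omega) le_rfl
      exact Nat.lt_succ_iff.1 ((Nat.div_lt_iff_lt_mul h3.pos).2 this)
    have e2 : 2 * k * (n / p) + 2 * k ≤ p := by
      calc 2 * k * (n / p) + 2 * k = 2 * k * (n / p + 1) := by ring
        _ ≤ 2 * k * (B + 1) := Nat.mul_le_mul le_rfl (by omega)
        _ ≤ n / B := hM
        _ ≤ p := h1.le
    have e3 : 2 * k * a ≤ (k - 1) * p := by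
      have : (k - 2) * p + p = (k - 1) * p := by
        obtain ⟨k', rfl⟩ : ∃ k', k = k' + 2 := ⟨k - 2, by omega⟩
        have e4 : k' + 2 - 1 = k' + 1 := by omega
        rw [e4, Nat.add_sub_cancel]
        ring
      omega
    have e4 : (2 : ℝ) * k * a ≤ ((k : ℝ) - 1) * p := by
      have e5 : (((2 * k * a : ℕ)) : ℝ) ≤ (((k - 1) * p : ℕ) : ℝ) := by exact_mod_cast e3
      rw [Nat.cast_mul, Nat.cast_mul, Nat.cast_mul, Nat.cast_sub (by omega)] at e5
      push_cast at e5
      exact e5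
    rw [div_mul_eq_mul_div, le_div_iff₀ (by positivity)]
    linarith

end Pool.Agent.Helper12.SM
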